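import Mathlib
import Pool.Agent.H581R.FF.Stubs3
import Pool.Agent.H581R.FF.TAD
import Pool.Agent.H581R.FF.TBACK
import Pool.Agent.H581R.FF.TBND
import Pool.Agent.H581R.FF.TCONG
import Pool.Agent.H581R.FF.TDER
import Pool.Agent.H581R.FF.TEV1
import Pool.Agent.H581R.FF.TEV2
import Pool.Agent.H581R.FF.TEVST
import Pool.Agent.H581R.FF.TFCYC
import Pool.Agent.H581R.FF.TFFIX
import Pool.Agent.H581R.FF.TFIX0
import Pool.Agent.H581R.FF.TFLOW
import Pool.Agent.H581R.FF.TFORM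
import Pool.Agent.H581R.FF.TFOU
import Pool.Agent.H581R.FF.TFSTD
import Pool.Agent.H581R.FF.TINIT
import Pool.Agent.H581R.FF.TISOb
import Pool.Agent.H581R.FF.TL1
import Pool.Agent.H581R.FF.TL2
import Pool.Agent.H581R.FF.TLIM
import Pool.Agent.H581R.FF.TNSTEP
import Pool.Agent.H581R.FF.TSLIM
import Pool.Agent.H581R.FF.TSPAT
import Pool.Agent.H581R.FF.TSTAGE2
import Pool.Agent.H581R.FF.TSTAR
import Pool.Agent.H581R.FF.TTAY
import Pool.Agent.H581R.FF.TTR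
import Pool.Agent.H581R.FF.TWDIST
import Pool.Agent.H581R.FF.TWOT
import Pool.Agent.H722.FG.CW

/-! Assembly of the isomorphism of the free group factors. -/

namespace Pool.Agent.H667R4.FG

open Pool.Agent.H581R.FF
open Pool.Agent.H667R2.FG (Ell permOp lam rho delta LG EltG tau)

theorem nstep : S_NSTEP :=
  Pool.Agent.H581R.FF.t_NSTEP TL1.t_L1 TEV1.t_EV1 TEV2.t_EV2 TEVST.t_EVST
    (TFLOW.t_FLOW TL1.t_L1 TEV1.t_EV1 TEVST.t_EVST)
    (TTAY.t_TAY TL1.t_L1 TEV1.t_EV1) (TBACK.t_BACK TL1.t_L1 TEV1.t_EV1)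
    (TFSTD.t_FSTD TEV2.t_EV2) TFCYC.t_FCYC TFFIX.t_FFIX TL2.t_L2

theorem stage : S_STAGE2 :=
  TSTAGE2.t_STAGE2 TDER.t_DER (Pool.Agent.H581R.FF.t_BND TL1.t_L1) TTR.t_TR TSTAR.t_STAR TFORM.t_FORM
    TFIX0.t_FIX0 TAD.t_AD TL2.t_L2 Pool.Agent.H722.FG.t_CW TFOU.t_FOU nstep

theorem lim : S_LIM := TLIM.t_LIM TSLIM.t_SLIM TWDIST.t_WDIST

theorem countable_freeGroup (κ : Type) [Countable κ] : Countable (FreeGroup κ) := by
  have : Function.Surjective (FreeGroup.mk : List (κ × Bool) → FreeGroup κ) :=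
    Quot.mk_surjective
  exact this.countable

/-- the cyclic system with two letters -/
theorem exists_system (n : ℕ) (hn : 2 ≤ n) :
    ∃ σ : FreeGroup (Fin n) →* unitary (Op (FreeGroup (Option (Fin n)))), Std σ ∧ Cyc σ := by
  have : Countable (FreeGroup (Option (Fin n))) := countable_freeGroup _
  obtain ⟨a, u, hau⟩ : ∃ a u : Fin n, a ≠ u := by
    refine ⟨⟨0, by omega⟩, ⟨1, by omega⟩, ?_⟩
    simp [Fin.ext_iff]
  exact lim (Fin n) (FreeGroup (Option (Fin n))) a a u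
    (fun π h1 h2 => stage (Fin n) (FreeGroup (Option (Fin n))) a u hau π h1 h2)
    (TINIT.t_INIT (Option (Fin n)))

theorem step (n : ℕ) (hn : 2 ≤ n) :
    Nonempty (EltG (FreeGroup (Fin n)) ≃⋆ₐ[ℂ] EltG (FreeGroup (Fin (n + 1)))) := by
  obtain ⟨σ, hσ, hσc⟩ := exists_system n hn
  obtain ⟨e1⟩ := TISOb.t_ISO (Fin n) (FreeGroup (Option (Fin n))) σ hσ hσc
  obtain ⟨e2⟩ := TCONG.t_CONG (FreeGroup (Option (Fin n))) (FreeGroup (Fin (n + 1)))
    (FreeGroup.freeGroupCongr (finSuccEquiv n).symm)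
  exact ⟨e1.trans e2⟩

end Pool.Agent.H667R4.FG

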