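import Mathlib
import Pool.Agent.H667R4.FG.Final

/-! Spatial isomorphisms of group von Neumann algebras. -/

namespace Pool.Agent.H667R4.FG

open Pool.Agent.H581R.FF
open Pool.Agent.H667R2.FG (Ell permOp lam rho delta LG EltG tau)
open scoped InnerProductSpace

/-- the group von Neumann algebras of `G` and `G'` are conjugate by a unitary operator which maps
the vector `δ_1` to the vector `δ_1` -/
def SpIso (G G' : Type) [Group G] [Group G'] : Prop :=
  ∃ W : Ell G ≃ₗᵢ[ℂ] Ell G', W (delta 1) = delta 1 ∧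
    ∀ T : Op G, T ∈ LG G ↔ W.conjStarAlgEquiv T ∈ LG G'

section

variable {G G' G'' : Type} [Group G] [Group G'] [Group G'']

theorem SpIso.refl (G : Type) [Group G] : SpIso G G :=
  ⟨LinearIsometryEquiv.refl ℂ _, rfl, fun _ => Iff.rfl⟩

theorem SpIso.symm (h : SpIso G G') : SpIso G' G := by
  obtain ⟨W, h1, h2⟩ := h
  refine ⟨W.symm, ?_, fun T => ?_⟩
  · rw [← h1, LinearIsometryEquiv.symm_apply_apply]
  · rw [h2 (W.symm.conjStarAlgEquiv T)]
    have e : W.conjStarAlgEquiv (W.symm.conjStarAlgEquiv T) = T := by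
      rw [← LinearIsometryEquiv.symm_conjStarAlgEquiv, StarAlgEquiv.apply_symm_apply]
    rw [e]

theorem SpIso.trans (h : SpIso G G') (h' : SpIso G' G'') : SpIso G G'' := by
  obtain ⟨W, h1, h2⟩ := h
  obtain ⟨W', h1', h2'⟩ := h'
  refine ⟨W.trans W', ?_, fun T => ?_⟩
  · rw [LinearIsometryEquiv.trans_apply, h1, h1']
  · rw [h2, h2']
    rfl

theorem tau_eq_inner (x : Op G) : tau x = ⟪(delta 1 : Ell G), x (delta 1)⟫_ℂ := by
  rw [Pool.Agent.H667R2.FG.TL2.inner_delta]
  rfl

theorem tau_conj (W : Ell G ≃ₗᵢ[ℂ] Ell G') (h1 : W (delta 1) = delta 1) (x : Op G) :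
    tau (W.conjStarAlgEquiv x) = tau x := by
  have h2 : W.symm (delta 1) = delta 1 := by
    rw [← h1, LinearIsometryEquiv.symm_apply_apply]
  rw [tau_eq_inner, tau_eq_inner, LinearIsometryEquiv.conjStarAlgEquiv_apply_apply, h2, ← h1,
    LinearIsometryEquiv.inner_map_map]

/-- a spatial isomorphism gives a trace preserving star algebra isomorphism -/
theorem SpIso.iso (h : SpIso G G') :
    ∃ e : EltG G ≃⋆ₐ[ℂ] EltG G', ∀ x, tau (e x : Op G') = tau (x : Op G) := by
  obtain ⟨W, h1, h⟩ := h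
  refine ⟨{ toFun := fun x => ⟨W.conjStarAlgEquiv (x : Op G), (h _).1 x.2⟩
            invFun := fun y => ⟨W.conjStarAlgEquiv.symm (y : Op G'), (h _).2 (by
              rw [StarAlgEquiv.apply_symm_apply]; exact y.2)⟩
            left_inv := fun x => Subtype.ext (W.conjStarAlgEquiv.symm_apply_apply _)
            right_inv := fun y => Subtype.ext (W.conjStarAlgEquiv.apply_symm_apply _)
            map_mul' := fun _ _ => Subtype.ext (map_mul W.conjStarAlgEquiv _ _)
            map_add' := fun _ _ => Subtype.ext (map_add W.conjStarAlgEquiv _ _)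
            map_smul' := fun _ _ => Subtype.ext (map_smul W.conjStarAlgEquiv _ _)
            map_star' := fun _ => Subtype.ext (map_star W.conjStarAlgEquiv _) }, fun x => ?_⟩
  exact tau_conj W h1 (x : Op G)

end

theorem spIso_of_system {κ G : Type} [Group G] (σ : FreeGroup κ →* unitary (Op G)) (hs : Std σ)
    (hc : Cyc σ) : SpIso (FreeGroup κ) G := by
  classical
  let W := (TSPAT.hb σ hs hc).repr
  refine ⟨W.symm, ?_, ?_⟩
  · have e1 : W (TSPAT.hb σ hs hc 1) = (delta 1 : Ell (FreeGroup κ)) := by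
      rw [TSPAT.delta_eq]; exact (TSPAT.hb σ hs hc).repr_self 1
    rw [← e1, LinearIsometryEquiv.symm_apply_apply, TSPAT.hb_apply, map_one]
    rfl
  intro T
  let φ : Op G ≃* Op (FreeGroup κ) :=
    { toFun := W.conjStarAlgEquiv
      invFun := W.conjStarAlgEquiv.symm
      left_inv := W.conjStarAlgEquiv.symm_apply_apply
      right_inv := W.conjStarAlgEquiv.apply_symm_apply
      map_mul' := fun x y => map_mul W.conjStarAlgEquiv x y }
  have h0 : φ '' (Set.range fun w => (σ w : Op G)) = Set.range (lam (G := FreeGroup κ)) := by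
    rw [← Set.range_comp]
    congr 1
    funext g
    exact TSPAT.phi_lam σ hs hc g
  have h1 := TSPAT.image_cent φ _ _ h0
  have h2 := TSPAT.mem_cent φ _ _ h1 (W.conjStarAlgEquiv.symm T)
  rw [TSPAT.cent_eq σ hs hc] at h2
  have e1 : φ (W.conjStarAlgEquiv.symm T) = T := W.conjStarAlgEquiv.apply_symm_apply T
  rw [e1] at h2
  have e3 : W.symm.conjStarAlgEquiv T = W.conjStarAlgEquiv.symm T := rfl
  have e4 : T ∈ LG (FreeGroup κ) ↔
      T ∈ ((LG (FreeGroup κ)).toStarSubalgebra : Set (Op (FreeGroup κ))) := Iff.rfl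
  have e5 : W.symm.conjStarAlgEquiv T ∈ LG G ↔
      W.symm.conjStarAlgEquiv T ∈ ((LG G).toStarSubalgebra : Set (Op G)) := Iff.rfl
  rw [e4, e5, TSPAT.LG_coe, TSPAT.LG_coe, e3]
  exact h2

theorem spIso_of_equiv {G G' : Type} [Group G] [Group G'] (e : G ≃* G') : SpIso G G' := by
  classical
  refine ⟨TCONG.We e.toEquiv, ?_, ?_⟩
  · ext h
    rw [TCONG.We_apply, Pool.Agent.H667R2.FG.TL2.delta_apply,
      Pool.Agent.H667R2.FG.TL2.delta_apply]
    have : e.toEquiv.symm h = 1 ↔ h = 1 := by
      change e.symm h = 1 ↔ h = 1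
      rw [map_eq_one_iff _ e.symm.injective]
    simp only [this]
  · set Φ := (TCONG.We e.toEquiv).conjStarAlgEquiv with hΦ
    have h0 : ∀ a : Op G, a ∈ Set.range (lam (G := G)) ↔ Φ a ∈ Set.range (lam (G := G')) := by
      intro a
      constructor
      · rintro ⟨g, rfl⟩
        exact ⟨e g, (TCONG.conj_lam e g).symm⟩
      · rintro ⟨g', hg'⟩
        refine ⟨e.symm g', ?_⟩
        apply (EquivLike.injective Φ : Function.Injective (Φ : Op G → Op G'))
        rw [hΦ, TCONG.conj_lam, ← hΦ, ← hg']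
        simp
    have h1 := fun a => TCONG.cent_iff Φ h0 a
    exact fun a => TCONG.cent_iff Φ (S := (StarSubalgebra.centralizer ℂ (Set.range (lam (G := G))) :
        Set (Op G))) (T := (StarSubalgebra.centralizer ℂ (Set.range (lam (G := G'))) :
        Set (Op G'))) h1 a

theorem spIso_step (n : ℕ) (hn : 2 ≤ n) : SpIso (FreeGroup (Fin n)) (FreeGroup (Fin (n + 1))) := by
  obtain ⟨σ, hσ, hσc⟩ := exists_system n hn
  exact (spIso_of_system σ hσ hσc).trans
    (spIso_of_equiv (FreeGroup.freeGroupCongr (finSuccEquiv n).symm))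

theorem spIso_two (n : ℕ) (hn : 2 ≤ n) : SpIso (FreeGroup (Fin 2)) (FreeGroup (Fin n)) := by
  induction n, hn using Nat.le_induction with
  | base => exact SpIso.refl _
  | succ k hk ih => exact ih.trans (spIso_step k hk)

/-- all free group factors of finite rank are conjugate -/
theorem spIso_free {m n : ℕ} (hm : 2 ≤ m) (hn : 2 ≤ n) :
    SpIso (FreeGroup (Fin m)) (FreeGroup (Fin n)) :=
  (spIso_two m hm).symm.trans (spIso_two n hn)

end Pool.Agent.H667R4.FG
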